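import Mathlib
import Pool.Agent.H20.EG.Main

/-!
# Lower bounds toward Malle's conjecture for every transitive group

`G` is a transitive subgroup of `S_n`, `n ≥ 2`, generated by `g 1, …, g r`. The index of a
permutation is `n` minus the number of its orbits. There is a number field `k₀` such that for every
number field `k` containing `k₀` the number of extensions of degree `n` of `k` with the permutation
group `G` and relative discriminant of norm at most `B` is at least
`B ^ (1 / (ind (g 1) + … + ind (g r)) - ε)` for large `B`.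
-/

set_option autoImplicit false

open Filter

namespace Pool.Agent.Results.MP_a3214d_nt.EveryTransitiveGroup

/-- The index of a permutation of `n` points: `n` minus the number of its orbits. -/
noncomputable def index {n : ℕ} (g : Equiv.Perm (Fin n)) : ℕ :=
  n - Nat.card (MulAction.orbitRel.Quotient (Subgroup.zpowers g) (Fin n))

/-- `M / k` has degree `n`, the permutation group `G` on the embeddings of `M`, and relative
discriminant of norm at most `B` (the three conditions of the frozen statement). -/
structure IsCounted (k : Type) [Field k] [NumberField k] (n : ℕ)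
    (G : Subgroup (Equiv.Perm (Fin n))) (B : ℝ)
    (M : IntermediateField k (AlgebraicClosure k)) : Prop where
  degree : Module.finrank k M = n
  group : ∃ e : (M →ₐ[k] AlgebraicClosure k) ≃ Fin n, ∀ π : Equiv.Perm (Fin n),
    π ∈ G ↔ ∃ σ : AlgebraicClosure k ≃ₐ[k] AlgebraicClosure k,
      ∀ φ : M →ₐ[k] AlgebraicClosure k, e (σ.toAlgHom.comp φ) = π (e φ)
  discr : ∃ h : NumberField M,
    ((|@NumberField.discr M _ h| : ℤ) : ℝ) ≤ B * ((|NumberField.discr k| : ℤ) : ℝ) ^ n

/-- `N(k, G; B)`, as in the frozen statement: the number of extensions of degree `n` of `k` up to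
`k`-isomorphism with permutation group `G` and norm of the relative discriminant at most `B`. -/
noncomputable def countFields (k : Type) [Field k] [NumberField k] (n : ℕ)
    (G : Subgroup (Equiv.Perm (Fin n))) (B : ℝ) : ℕ :=
  Nat.card (Quot (fun L L' : {M : IntermediateField k (AlgebraicClosure k) //
    IsCounted k n G B M} => Nonempty (L.1 ≃ₐ[k] L'.1)))

theorem result (n : ℕ) (hn : 2 ≤ n) (G : Subgroup (Equiv.Perm (Fin n)))
    (htr : ∀ a b : Fin n, ∃ σ ∈ G, σ a = b) (r : ℕ) (g : Fin r → Equiv.Perm (Fin n))
    (hg : Subgroup.closure (Set.range g) = G) :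
    ∃ k₀ : IntermediateField ℚ (AlgebraicClosure ℚ), FiniteDimensional ℚ k₀ ∧
      ∀ (k : Type) [Field k] [NumberField k], Nonempty (k₀ →+* k) →
      ∀ ε : ℝ, 0 < ε → ∀ᶠ B : ℝ in atTop,
        B ^ (1 / ((∑ i, index (g i) : ℕ) : ℝ) - ε) ≤ (countFields k n G B : ℝ) := by
  obtain ⟨k₀, i1, i2, h⟩ := H20.EG.main_all hn G htr g hg
  let φ : k₀ →ₐ[ℚ] AlgebraicClosure ℚ := IsAlgClosed.lift
  refine ⟨φ.fieldRange, ?_, ?_⟩
  · exact (AlgEquiv.ofInjectiveField φ).toLinearEquiv.finiteDimensional
  · intro k _ _ ⟨f⟩ ε hε
    filter_upwards [h k ⟨f.comp (AlgEquiv.ofInjectiveField φ).toRingEquiv.toRingHom⟩ ε hε]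
      with B hB
    refine hB.trans (le_of_eq (congrArg _ (congrArg
      (fun P : IntermediateField k (AlgebraicClosure k) → Prop =>
        Nat.card (Quot (fun L L' : {M : IntermediateField k (AlgebraicClosure k) // P M} =>
          Nonempty (L.1 ≃ₐ[k] L'.1)))) (funext fun M => propext ?_))))
    exact ⟨fun h => ⟨h.1, h.2.1, h.2.2⟩, fun h => ⟨h.1, h.2, h.3⟩⟩

end Pool.Agent.Results.MP_a3214d_nt.EveryTransitiveGroup
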