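import Pool.Agent.TF.FinT

/-!
# Malle's conjecture over number fields for nilpotent groups

Let `k` be a number field and let `G` be a nontrivial transitive nilpotent permutation group of
degree `n`. Let `m` be the least index of a nontrivial element of `G`. Assume that

* the elements of index `m` lie in the second center of `G`, and one of them in the center
  (this holds for the regular representation of `G` if the elements whose order is the least prime
  divisor of `|G|` lie in the second center, for example if `G` has class at most two), and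
* the Sylow 2-subgroup of `G` has class at most two (for example `|G|` is odd), or `k` has at least
  one extension with group `G`.

Then the number of extensions of `k` of degree `n` with group `G` and relative discriminant of
norm at most `B` is asymptotic to `c B ^ (1 / m) (log B) ^ (b - 1)` with `c > 0`, where `b` is the
number of orbits of the absolute Galois group of `k` on the classes of elements of index `m`.
-/

set_option autoImplicit false

open NumberField

namespace Pool.Agent.Results.MP_a3214d_nt.NilpotentGroups

theorem result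
    (k : Type) [Field k] [NumberField k] (n : ℕ) (G : Subgroup (Equiv.Perm (Fin n)))
    (hne : G ≠ ⊥) (htr : MulAction.IsPretransitive G (Fin n)) (hnil : Group.IsNilpotent G)
    (m : ℕ)
    (hm : IsLeast {j | ∃ g ∈ G, g ≠ 1 ∧ g.support.card - Multiset.card g.cycleType = j} m)
    (hz : ∀ g : G, g ≠ 1 → (g : Equiv.Perm (Fin n)).support.card -
      Multiset.card (g : Equiv.Perm (Fin n)).cycleType = m → ∀ x y : G,
        g * x * g⁻¹ * x⁻¹ * y = y * (g * x * g⁻¹ * x⁻¹))
    (hc : ∃ g : G, g ≠ 1 ∧ (g : Equiv.Perm (Fin n)).support.card -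
      Multiset.card (g : Equiv.Perm (Fin n)).cycleType = m ∧ ∀ x : G, g * x = x * g)
    (hex : (∀ P : Sylow 2 G, commutator P ≤ Subgroup.center P) ∨
      ∃ M : IntermediateField k (AlgebraicClosure k), Module.finrank k M = n ∧
        ∃ e : (M →ₐ[k] AlgebraicClosure k) ≃ Fin n, ∀ π : Equiv.Perm (Fin n),
          π ∈ G ↔ ∃ σ : AlgebraicClosure k ≃ₐ[k] AlgebraicClosure k,
            ∀ φ : M →ₐ[k] AlgebraicClosure k, e (σ.toAlgHom.comp φ) = π (e φ)) :
    ∃ c : ℝ, 0 < c ∧
      Asymptotics.IsEquivalent Filter.atTop
        (fun B : ℝ => ((Nat.card (Quot (fun L L' : {M : IntermediateField k (AlgebraicClosure k) //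
            Module.finrank k M = n ∧
            (∃ e : (M →ₐ[k] AlgebraicClosure k) ≃ Fin n, ∀ π : Equiv.Perm (Fin n),
               π ∈ G ↔ ∃ σ : AlgebraicClosure k ≃ₐ[k] AlgebraicClosure k,
                 ∀ φ : M →ₐ[k] AlgebraicClosure k, e (σ.toAlgHom.comp φ) = π (e φ)) ∧
            ∃ h : NumberField M,
              ((|@NumberField.discr M _ h| : ℤ) : ℝ) ≤ B * ((|NumberField.discr k| : ℤ) : ℝ) ^ n}
          => Nonempty (L.1 ≃ₐ[k] L'.1))) : ℕ) : ℝ))
        (fun B : ℝ => c * B ^ (1 / m : ℝ) * Real.log B ^
          (Nat.card (Quot (fun c c' : {c : ConjClasses G // ∃ g : G, ConjClasses.mk g = c ∧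
              g ≠ 1 ∧ (g : Equiv.Perm (Fin n)).support.card -
                Multiset.card (g : Equiv.Perm (Fin n)).cycleType = m} =>
            ∃ (σ : AlgebraicClosure k ≃ₐ[k] AlgebraicClosure k) (j : ℕ),
              (∀ ζ : AlgebraicClosure k, ζ ^ Nat.card G = 1 → σ ζ = ζ ^ j) ∧
              ∃ g : G, ConjClasses.mk g = c.1 ∧ ConjClasses.mk (g ^ j) = c'.1)) - 1)) :=
  Pool.Agent.TF.finT k n G hne htr hnil m hm hz hc hex

end Pool.Agent.Results.MP_a3214d_nt.NilpotentGroups
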