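import Pool.Agent.H98.R4.Main4

set_option autoImplicit false

open Pool.Agent.H98.TQ

namespace Pool.Agent.Results.MP_a3214d_nt.SymmetricFields

/-- Lower bounds for the number `NSym k n B` of extensions of degree `n` with group `S_n` of a
number field `k` whose relative discriminant has norm at most `B`: for all large `B` the exponent
`1 / 2 + 101 / (100 n)` if `n ≥ 7`, the exponent `1 / 2 + 109 / (100 n)` if `n ≥ 17`, and
`1 / 2 + κ / n` for every `κ < 3 / 2` if `n` is large; for arbitrarily large `B` the exponent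
`1 / 2 + 3 / (2 n)` if `n ≥ 6`. -/
theorem result :
    (∀ n : ℕ, 7 ≤ n → ∀ (k : Type) [Field k] [NumberField k],
      ∀ᶠ B : ℝ in Filter.atTop, B ^ (1 / 2 + 101 / (100 * (n : ℝ))) ≤ (NSym k n B : ℝ)) ∧
    (∀ n : ℕ, 17 ≤ n → ∀ (k : Type) [Field k] [NumberField k],
      ∀ᶠ B : ℝ in Filter.atTop, B ^ (1 / 2 + 109 / (100 * (n : ℝ))) ≤ (NSym k n B : ℝ)) ∧
    (∀ κ : ℝ, κ < 3 / 2 → ∃ n0 : ℕ, ∀ n : ℕ, n0 ≤ n → ∀ (k : Type) [Field k] [NumberField k],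
      ∀ᶠ B : ℝ in Filter.atTop, B ^ (1 / 2 + κ / (n : ℝ)) ≤ (NSym k n B : ℝ)) ∧
    (∀ n : ℕ, 6 ≤ n → ∀ (k : Type) [Field k] [NumberField k],
      ∃ᶠ B : ℝ in Filter.atTop, B ^ (1 / 2 + 3 / (2 * (n : ℝ))) ≤ (NSym k n B : ℝ)) :=
  Pool.Agent.H98.R4.result_aux4

end Pool.Agent.Results.MP_a3214d_nt.SymmetricFields
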