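import Mathlib
import Pool.Agent.H52.UL.Main2

/-!
# The number of all extensions of degree `n` of a number field, and upper bounds in Malle's
conjecture for every permutation group

There is an explicit function `E`, the same for all number fields `k`, such that for all `n` and
all `ε > 0` the number of all extensions of `k` of degree `n`, up to isomorphism, with norm of the
relative discriminant at most `B`, is `O(B ^ (E n + ε))`; hence also the number of those with any
given permutation group `G`. Here `E n ≤ ∑ (κ_i - 1/2)` for all natural numbers `κ_i` with product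
at least `n` (so `E n ≤ (3/2) ⌈log₂ n⌉` for `n ≥ 2`), and `E n ≤ c log n` for all large `n`, for
every `c > 3 / (2 log 3)`.
-/

set_option autoImplicit false

open NumberField Filter

namespace Pool.Agent.Results.MP_a3214d_nt.TotalCount

theorem result (k : Type) [Field k] [NumberField k] :
    ∃ E : ℕ → ℝ,
      (∀ n : ℕ, E n = sInf {e : ℝ |
        (∃ (q : ℕ) (κ : Fin (q + 1) → ℕ), n ≤ ∏ i, κ i ∧ e = ∑ i, ((κ i : ℝ) - 1 / 2)) ∨
        ∃ s r₀ r₁ : ℕ, 1 ≤ s ∧ s ≤ n ∧ 1 ≤ r₀ ∧ (n : ℝ) / s * Real.log n + 1 ≤ 2 ^ r₀ ∧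
          s ≤ 3 ^ r₁ ∧ e = (4 * (r₀ : ℝ) + 3 * r₁) / 2 * (n / (n - s + 1))}) ∧
      (∀ (n q : ℕ) (κ : Fin (q + 1) → ℕ), 1 ≤ n → n ≤ ∏ i, κ i →
        E n ≤ ∑ i, ((κ i : ℝ) - 1 / 2)) ∧
      (∀ c : ℝ, 3 / (2 * Real.log 3) < c → ∀ᶠ n : ℕ in atTop, E n ≤ c * Real.log n) ∧
      ∀ n : ℕ, 1 ≤ n → ∀ ε : ℝ, 0 < ε → ∃ C : ℝ, ∀ B : ℝ, 1 ≤ B →
        Finite (Quot (fun L L' : {M : IntermediateField k (AlgebraicClosure k) //
            Module.finrank k M = n ∧ ∃ h : NumberField M,
              ((|@NumberField.discr M _ h| : ℤ) : ℝ) ≤ B * ((|NumberField.discr k| : ℤ) : ℝ) ^ n}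
          => Nonempty (L.1 ≃ₐ[k] L'.1))) ∧
        (Nat.card (Quot (fun L L' : {M : IntermediateField k (AlgebraicClosure k) //
            Module.finrank k M = n ∧ ∃ h : NumberField M,
              ((|@NumberField.discr M _ h| : ℤ) : ℝ) ≤ B * ((|NumberField.discr k| : ℤ) : ℝ) ^ n}
          => Nonempty (L.1 ≃ₐ[k] L'.1))) : ℝ) ≤ C * B ^ (E n + ε) ∧
        ∀ G : Subgroup (Equiv.Perm (Fin n)),
          (Nat.card (Quot (fun L L' : {M : IntermediateField k (AlgebraicClosure k) //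
              Module.finrank k M = n ∧
              (∃ e : (M →ₐ[k] AlgebraicClosure k) ≃ Fin n, ∀ π : Equiv.Perm (Fin n),
                π ∈ G ↔ ∃ σ : AlgebraicClosure k ≃ₐ[k] AlgebraicClosure k,
                  ∀ φ : M →ₐ[k] AlgebraicClosure k, e (σ.toAlgHom.comp φ) = π (e φ)) ∧
              ∃ h : NumberField M,
                ((|@NumberField.discr M _ h| : ℤ) : ℝ) ≤ B * ((|NumberField.discr k| : ℤ) : ℝ) ^ n}
            => Nonempty (L.1 ≃ₐ[k] L'.1))) : ℝ) ≤ C * B ^ (E n + ε) := by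
  obtain ⟨h1, h2, h3⟩ := H52.UL.main2x
  exact ⟨fun n => sInf (H52.UL.expSet n), fun n => rfl, h1, h2, fun n hn ε hε => h3 n hn k ε hε⟩

end Pool.Agent.Results.MP_a3214d_nt.TotalCount
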